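import Pool.Agent.N671.DA.Tup

/-!
# Integer vectors near multiples of which lies a thin set

If a set `E` of integer vectors has at most `C T^(k - c)` elements of size at most `T`, the set of the integer vectors `v`
for which some `(a_i v_i + b_i)` with small integers `a_i ≠ 0`, `b_i` lies in `E` is also thin.
-/

set_option autoImplicit false

namespace Pool.Agent.N665.DA

open Finset Classical
open Pool.Agent.N671.DA (Near Thin thin_of_nat approx_vectors)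

/-- the number of `w` in a box with `a w + b ∈ E` -/
lemma count_shift {k : ℕ} (E : Set (Fin k → ℤ)) (X Y T : ℕ) (hT : Y * X + Y ≤ T) (a b : Fin k → ℤ)
    (ha : ∀ i, a i ≠ 0 ∧ |a i| ≤ (Y : ℤ)) (hb : ∀ i, |b i| ≤ (Y : ℤ)) :
    ((Fintype.piFinset fun _ : Fin k => Icc (-(X : ℤ)) X).filter (fun w => (fun i => a i * w i + b i) ∈ E)).card ≤
      {α : Fin k → ℤ | (∀ i, |α i| ≤ (T : ℤ)) ∧ α ∈ E}.ncard := by
  have hfin : {α : Fin k → ℤ | (∀ i, |α i| ≤ (T : ℤ)) ∧ α ∈ E}.Finite := by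
    refine (Set.Finite.pi' (fun _ : Fin k => Set.finite_Icc (-(T : ℤ)) T)).subset ?_
    intro α hα i
    exact abs_le.1 (hα.1 i)
  rw [Set.ncard_eq_toFinset_card _ hfin]
  refine Finset.card_le_card_of_injOn (fun w i => a i * w i + b i) ?_ ?_
  · intro w hw
    rw [mem_coe, mem_filter, Fintype.mem_piFinset] at hw
    rw [Set.Finite.coe_toFinset]
    refine ⟨fun i => ?_, hw.2⟩
    have h1 := hw.1 i
    rw [mem_Icc] at h1
    have h2 : |w i| ≤ X := abs_le.2 h1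
    calc |a i * w i + b i| ≤ |a i| * |w i| + |b i| := by
          rw [← abs_mul]; exact abs_add_le _ _
      _ ≤ Y * X + Y := add_le_add (mul_le_mul (ha i).2 h2 (abs_nonneg _) (by positivity)) (hb i)
      _ ≤ T := by exact_mod_cast hT
  · intro w _ w' _ h
    funext i
    have h1 := congrFun h i
    simp only at h1
    have h2 : a i * w i = a i * w' i := by linarith
    exact mul_left_cancel₀ (ha i).1 h2

lemma abs_le_floor {x : ℝ} {a : ℤ} (h : |(a : ℝ)| ≤ x) : |a| ≤ ((⌊x⌋₊ : ℕ) : ℤ) := by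
  have h1 : a.natAbs ≤ ⌊x⌋₊ := by
    apply Nat.le_floor
    rw [Nat.cast_natAbs, Int.cast_abs]
    exact h
  rw [Int.abs_eq_natAbs]
  exact_mod_cast h1

/-- The integer vectors `v` such that `(a_i v_i + b_i)` lies in `E` for some integers `a_i ≠ 0`, `b_i` of absolute value at
most `|v| ^ η`. -/
def NearSet {k : ℕ} (E : Set (Fin k → ℤ)) (η : ℝ) : Set (Fin k → ℤ) :=
  {v | ∃ a b : Fin k → ℤ, (∀ i, a i ≠ 0 ∧ |(a i : ℝ)| ≤ ‖v‖ ^ η ∧ |(b i : ℝ)| ≤ ‖v‖ ^ η) ∧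
    (fun i => a i * v i + b i) ∈ E}

lemma norm_le_of_box {k : ℕ} {v : Fin k → ℤ} {X : ℕ} (h : ∀ i, |v i| ≤ (X : ℤ)) : ‖v‖ ≤ X := by
  rw [pi_norm_le_iff_of_nonneg (Nat.cast_nonneg X)]
  intro i
  rw [Int.norm_eq_abs]
  exact_mod_cast h i

theorem thin_near {k : ℕ} (hk : 1 ≤ k) {c : ℝ} (hc : 0 < c) (hc1 : c ≤ 1) (E : Set (Fin k → ℤ)) {C : ℝ}
    (hE : ∀ T : ℕ, 1 ≤ T → (({α : Fin k → ℤ | (∀ i, |α i| ≤ (T : ℤ)) ∧ α ∈ E}.ncard : ℕ) : ℝ) ≤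
      C * (T : ℝ) ^ ((k : ℝ) - c)) :
    Thin (NearSet E (c / (6 * k))) ((k : ℝ) - c / 2) := by
  have hk1 : (1 : ℝ) ≤ k := by exact_mod_cast hk
  obtain ⟨η, hη⟩ : ∃ η : ℝ, η = c / (6 * k) := ⟨_, rfl⟩
  have hη0 : 0 < η := by rw [hη]; positivity
  have hηk : 3 * k * η = c / 2 := by rw [hη]; field_simp; norm_num
  rw [← hη]
  have hC : 0 ≤ C := by
    have h := hE 1 le_rfl
    have h1 : ((1 : ℕ) : ℝ) ^ ((k : ℝ) - c) = 1 := by rw [Nat.cast_one, Real.one_rpow]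
    rw [h1, mul_one] at h
    exact le_trans (Nat.cast_nonneg _) h
  refine thin_of_nat (C₀ := 18 ^ k * C) (by linarith) fun X hX => ?_
  have hX1 : (1 : ℝ) ≤ X := by exact_mod_cast hX
  have hX0 : (0 : ℝ) < X := by linarith
  obtain ⟨Y, hY⟩ : ∃ Y : ℕ, Y = ⌊(X : ℝ) ^ η⌋₊ := ⟨_, rfl⟩
  have hYr : (Y : ℝ) ≤ (X : ℝ) ^ η := by rw [hY]; exact Nat.floor_le (by positivity)
  have hY1 : 1 ≤ Y := by
    rw [hY]
    apply Nat.le_floor
    rw [Nat.cast_one]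
    exact Real.one_le_rpow hX1 hη0.le
  have hY1r : (1 : ℝ) ≤ Y := by exact_mod_cast hY1
  obtain ⟨T, hT⟩ : ∃ T : ℕ, T = Y * X + Y := ⟨_, rfl⟩
  have hT1 : 1 ≤ T := by rw [hT]; omega
  have hT1r : (1 : ℝ) ≤ T := by exact_mod_cast hT1
  have hTr : (T : ℝ) ≤ 2 * (X : ℝ) ^ (1 + η) := by
    rw [Real.rpow_add hX0, Real.rpow_one, hT]
    push_cast
    nlinarith [mul_le_mul hYr hX1 (by norm_num) (by positivity : (0 : ℝ) ≤ (X : ℝ) ^ η)]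
  obtain ⟨S, hS⟩ : ∃ S : Finset (Fin k → ℤ), S = Fintype.piFinset fun _ : Fin k => Icc (-(Y : ℤ)) Y := ⟨_, rfl⟩
  have hScard : S.card = (2 * Y + 1) ^ k := by
    rw [hS, Fintype.card_piFinset_const, Int.card_Icc]
    congr 1
    omega
  obtain ⟨V, hV⟩ : ∃ V : (Fin k → ℤ) × (Fin k → ℤ) → Finset (Fin k → ℤ), V = fun p =>
      ((Fintype.piFinset fun _ : Fin k => Icc (-(X : ℤ)) X).filter (fun w => (fun i => p.1 i * w i + p.2 i) ∈ E)) :=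
    ⟨_, rfl⟩
  have hsub : {w : Fin k → ℤ | (∀ i, |w i| ≤ (X : ℤ)) ∧ w ∈ NearSet E η} ⊆
      ((((S.filter fun a => ∀ i, a i ≠ 0) ×ˢ S).biUnion V : Finset (Fin k → ℤ)) : Set (Fin k → ℤ)) := by
    rintro w ⟨hw, a, b, hl, hab⟩
    have hle : ‖w‖ ^ η ≤ (X : ℝ) ^ η :=
      Real.rpow_le_rpow (norm_nonneg _) (norm_le_of_box hw) hη0.le
    rw [mem_coe, mem_biUnion]
    refine ⟨(a, b), ?_, ?_⟩
    · rw [mem_product, mem_filter, hS, Fintype.mem_piFinset, Fintype.mem_piFinset]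
      refine ⟨⟨fun i => ?_, fun i => (hl i).1⟩, fun i => ?_⟩
      · rw [mem_Icc, ← abs_le, hY]
        exact abs_le_floor ((hl i).2.1.trans hle)
      · rw [mem_Icc, ← abs_le, hY]
        exact abs_le_floor ((hl i).2.2.trans hle)
    · rw [hV]
      simp only
      rw [mem_filter, Fintype.mem_piFinset]
      exact ⟨fun i => mem_Icc.2 (abs_le.1 (hw i)), hab⟩
  have h2 := Set.ncard_le_ncard hsub (finite_toSet _)
  rw [Set.ncard_coe_finset] at h2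
  have h3 : ∀ p ∈ (S.filter fun a => ∀ i, a i ≠ 0) ×ˢ S, (V p).card ≤
      {α : Fin k → ℤ | (∀ i, |α i| ≤ (T : ℤ)) ∧ α ∈ E}.ncard := by
    rintro ⟨a, b⟩ hp
    rw [mem_product, mem_filter, hS, Fintype.mem_piFinset, Fintype.mem_piFinset] at hp
    rw [hV]
    exact count_shift E X Y T hT.ge a b (fun i => ⟨hp.1.2 i, abs_le.2 (mem_Icc.1 (hp.1.1 i))⟩)
      (fun i => abs_le.2 (mem_Icc.1 (hp.2 i)))
  have h4 := h2.trans (card_biUnion_le.trans ((sum_le_card_nsmul _ _ _ h3)))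
  rw [card_product, smul_eq_mul] at h4
  have h5 : ((({w : Fin k → ℤ | (∀ i, |w i| ≤ (X : ℤ)) ∧ w ∈ NearSet E η}.ncard : ℕ)) : ℝ) ≤
      ((2 * Y + 1 : ℕ) : ℝ) ^ k * ((2 * Y + 1 : ℕ) : ℝ) ^ k * (C * (T : ℝ) ^ ((k : ℝ) - c)) := by
    have h6 : (((S.filter fun a => ∀ i, a i ≠ 0).card * S.card : ℕ) : ℝ) ≤
        ((2 * Y + 1 : ℕ) : ℝ) ^ k * ((2 * Y + 1 : ℕ) : ℝ) ^ k := by
      have h7 : (S.filter fun a => ∀ i, a i ≠ 0).card * S.card ≤ (2 * Y + 1) ^ k * (2 * Y + 1) ^ k := by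
        rw [hScard]
        exact Nat.mul_le_mul_right _ ((card_filter_le _ _).trans hScard.le)
      exact_mod_cast h7
    calc ((({w : Fin k → ℤ | (∀ i, |w i| ≤ (X : ℤ)) ∧ w ∈ NearSet E η}.ncard : ℕ)) : ℝ)
        ≤ (((S.filter fun a => ∀ i, a i ≠ 0).card * S.card : ℕ) : ℝ) *
          (({α : Fin k → ℤ | (∀ i, |α i| ≤ (T : ℤ)) ∧ α ∈ E}.ncard : ℕ) : ℝ) := by exact_mod_cast h4
      _ ≤ _ := mul_le_mul h6 (hE T hT1) (Nat.cast_nonneg _) (by positivity)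
  refine h5.trans ?_
  have e1 : ((2 * Y + 1 : ℕ) : ℝ) ≤ 3 * (X : ℝ) ^ η := by push_cast; linarith
  have e2 : ((2 * Y + 1 : ℕ) : ℝ) ^ k ≤ 3 ^ k * (X : ℝ) ^ (k * η) := by
    calc ((2 * Y + 1 : ℕ) : ℝ) ^ k ≤ (3 * (X : ℝ) ^ η) ^ k := pow_le_pow_left₀ (Nat.cast_nonneg _) e1 k
      _ = 3 ^ k * (X : ℝ) ^ (k * η) := by
          rw [mul_pow, ← Real.rpow_natCast ((X : ℝ) ^ η), ← Real.rpow_mul hX0.le, mul_comm η]
  have e3 : (T : ℝ) ^ ((k : ℝ) - c) ≤ 2 ^ k * (X : ℝ) ^ ((1 + η) * ((k : ℝ) - c)) := by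
    calc (T : ℝ) ^ ((k : ℝ) - c) ≤ (2 * (X : ℝ) ^ (1 + η)) ^ ((k : ℝ) - c) :=
          Real.rpow_le_rpow (by positivity) hTr (by linarith)
      _ = 2 ^ ((k : ℝ) - c) * (X : ℝ) ^ ((1 + η) * ((k : ℝ) - c)) := by
          rw [Real.mul_rpow (by norm_num) (by positivity), ← Real.rpow_mul hX0.le]
      _ ≤ 2 ^ k * (X : ℝ) ^ ((1 + η) * ((k : ℝ) - c)) := by
          apply mul_le_mul_of_nonneg_right _ (by positivity)
          rw [← Real.rpow_natCast]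
          exact Real.rpow_le_rpow_of_exponent_le (by norm_num) (by linarith)
  have e4 : (X : ℝ) ^ (k * η) * (X : ℝ) ^ (k * η) * (X : ℝ) ^ ((1 + η) * ((k : ℝ) - c)) ≤ (X : ℝ) ^ ((k : ℝ) - c / 2) := by
    rw [← Real.rpow_add hX0, ← Real.rpow_add hX0]
    apply Real.rpow_le_rpow_of_exponent_le hX1
    nlinarith [mul_pos hη0 hc]
  calc ((2 * Y + 1 : ℕ) : ℝ) ^ k * ((2 * Y + 1 : ℕ) : ℝ) ^ k * (C * (T : ℝ) ^ ((k : ℝ) - c))
      ≤ (3 ^ k * (X : ℝ) ^ (k * η)) * (3 ^ k * (X : ℝ) ^ (k * η)) *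
        (C * (2 ^ k * (X : ℝ) ^ ((1 + η) * ((k : ℝ) - c)))) :=
        mul_le_mul (mul_le_mul e2 e2 (by positivity) (by positivity)) (mul_le_mul_of_nonneg_left e3 hC)
          (by positivity) (by positivity)
    _ = 18 ^ k * C * ((X : ℝ) ^ (k * η) * (X : ℝ) ^ (k * η) * (X : ℝ) ^ ((1 + η) * ((k : ℝ) - c))) := by
        have : (18 : ℝ) ^ k = 3 ^ k * 3 ^ k * 2 ^ k := by rw [← mul_pow, ← mul_pow]; norm_num
        rw [this]
        ring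
    _ ≤ 18 ^ k * C * (X : ℝ) ^ ((k : ℝ) - c / 2) := mul_le_mul_of_nonneg_left e4 (by positivity)

/-- **Tool.** If `E` has at most `C T^(k - c)` elements of size at most `T` for all `T ≥ 1`, there is `η > 0`, which depends
on `c` and `k` only, such that for all systems `α` of `m` linear forms in `k` variables outside a set of dimension at most
`(k - 1) m + (m + k - η) / (1 + τ)` and all `c₁`, for all large integer vectors `v` with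
`‖(v α)_j - β_j‖ ≤ c₁ |v| ^ (-τ)` for all `j`, no vector `(a_i v_i + b_i)` with integers `a_i ≠ 0`, `b_i` of absolute value
at most `|v| ^ η` lies in `E`. -/
theorem approx_near {k : ℕ} (hk : 1 ≤ k) {c : ℝ} (hc : 0 < c) : ∃ η : ℝ, 0 < η ∧ ∀ (E : Set (Fin k → ℤ)) (C : ℝ),
    (∀ T : ℕ, 1 ≤ T → (({α : Fin k → ℤ | (∀ i, |α i| ≤ (T : ℤ)) ∧ α ∈ E}.ncard : ℕ) : ℝ) ≤
      C * (T : ℝ) ^ ((k : ℝ) - c)) →
    ∀ (m : ℕ) (β : Fin m → ℝ) (τ : ℝ), 0 < τ →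
      ∃ S : Set (Fin k × Fin m → ℝ), dimH S ≤ ENNReal.ofReal (((k : ℝ) - 1) * m + (m + ((k : ℝ) - η)) / (1 + τ)) ∧
      ∀ α, α ∉ S → ∀ c₁ : ℝ, ∃ Q : ℝ, ∀ v : Fin k → ℤ, Q ≤ ‖v‖ → Near α β v (c₁ * ‖v‖ ^ (-τ)) →
        ∀ a b : Fin k → ℤ, (∀ i, a i ≠ 0 ∧ |(a i : ℝ)| ≤ ‖v‖ ^ η ∧ |(b i : ℝ)| ≤ ‖v‖ ^ η) →
          (fun i => a i * v i + b i) ∉ E := by
  have hk1 : (1 : ℝ) ≤ k := by exact_mod_cast hk
  obtain ⟨c', hc'⟩ : ∃ c' : ℝ, c' = min c 1 := ⟨_, rfl⟩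
  have hc'0 : 0 < c' := by rw [hc']; exact lt_min hc one_pos
  have hc'c : c' ≤ c := by rw [hc']; exact min_le_left _ _
  have hc'1 : c' ≤ 1 := by rw [hc']; exact min_le_right _ _
  obtain ⟨η, hη⟩ : ∃ η : ℝ, η = c' / (6 * k) := ⟨_, rfl⟩
  have hη0 : 0 < η := by rw [hη]; positivity
  have hηk : 3 * k * η = c' / 2 := by rw [hη]; field_simp; norm_num
  refine ⟨η, hη0, fun E C hE m β τ hτ => ?_⟩
  have hC : 0 ≤ C := by
    have h := hE 1 le_rfl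
    have h1 : ((1 : ℕ) : ℝ) ^ ((k : ℝ) - c) = 1 := by rw [Nat.cast_one, Real.one_rpow]
    rw [h1, mul_one] at h
    exact le_trans (Nat.cast_nonneg _) h
  have hE' : ∀ T : ℕ, 1 ≤ T → (({α : Fin k → ℤ | (∀ i, |α i| ≤ (T : ℤ)) ∧ α ∈ E}.ncard : ℕ) : ℝ) ≤
      C * (T : ℝ) ^ ((k : ℝ) - c') := by
    intro T hT
    refine (hE T hT).trans (mul_le_mul_of_nonneg_left ?_ hC)
    exact Real.rpow_le_rpow_of_exponent_le (by exact_mod_cast hT) (by linarith)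
  have hT := thin_near hk hc'0 hc'1 E hE'
  rw [← hη] at hT
  obtain ⟨S, hS, hS2⟩ := approx_vectors hk (NearSet E η) (s := (k : ℝ) - c' / 2) (by linarith) hT β hτ
  refine ⟨S, hS.trans (ENNReal.ofReal_le_ofReal ?_), fun α hα c₁ => ?_⟩
  · have h1 : 0 < 1 + τ := by linarith
    gcongr
    nlinarith
  · obtain ⟨Q, hQ⟩ := hS2 α hα c₁
    refine ⟨Q, fun v hv h1 a b hab hE1 => ?_⟩
    exact hQ v hv h1 ⟨a, b, hab, hE1⟩

end Pool.Agent.N665.DA
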